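import Pool.Agent.H69.OC.Targets

set_option autoImplicit false
set_option linter.unusedSectionVars false
open scoped Classical
open Finset

namespace Pool.Agent.H11.OC

open Pool.Agent.H69.OC Pool.Agent.H69.OC.DG

variable {V D : Type} [Fintype V] [Fintype D] {G : DG V D}

/-- darts separated by `W` -/
noncomputable def sep (G : DG V D) (A : Finset D) (W : Finset V) : Finset D :=
  sel A fun d => ¬ (G.src d ∈ W ↔ G.tgt d ∈ W)

theorem mem_sep {A : Finset D} {W : Finset V} {d : D} :
    d ∈ sep G A W ↔ d ∈ A ∧ ¬ (G.src d ∈ W ↔ G.tgt d ∈ W) := mem_sel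

theorem card_sep {A : Finset D} (hA : G.Cl A) (W : Finset V) :
    (sep G A W).card = 2 * (G.cut A W).card := by
  refine card_cut_of_xor hA (sel_sub _ _) fun d hd => ?_
  rw [mem_sel]
  tauto

/-- an edge other than `b` is not separated if `cut A W = {b}` -/
theorem side_of_cut {A : Finset D} (hA : G.Cl A) {W : Finset V} {b : D} (h : G.cut A W = {b})
    {c : D} (hc : c ∈ A) (h1 : c ≠ b) (h2 : c ≠ G.inv b) : (G.src c ∈ W ↔ G.tgt c ∈ W) := by
  constructor
  · intro h3
    by_contra h4
    have : c ∈ G.cut A W := mem_cut.2 ⟨hc, h3, h4⟩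
    rw [h, mem_singleton] at this
    exact h1 this
  · intro h3
    by_contra h4
    have : G.inv c ∈ G.cut A W := mem_cut.2 ⟨hA _ hc, by rw [src_inv]; exact h3, by
      rw [tgt_inv]; exact h4⟩
    rw [h, mem_singleton, inv_eq_iff] at this
    exact h2 this

theorem core_aux {A A' : Finset D} (hA : G.Cl A) (hA' : G.Cl A') (hsub : A' ⊆ A)
    (hb : ∀ d ∈ A, d ∉ A' → ∃ W, G.cut A W = {d}) (hn : ∀ d ∈ A', ¬ ∃ W, G.cut A W = {d}) (n : ℕ) :
    ∀ W : Finset V, (sep G A W).card = n → (sep G A' W).card = 2 → False := by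
  induction n using Nat.strong_induction_on with
  | _ n ih =>
    intro W hW hW'
    by_cases hall : ∀ b ∈ sep G A W, b ∈ A'
    · have h1 : sep G A W = sep G A' W := by
        ext d
        rw [mem_sep, mem_sep]
        constructor
        · rintro ⟨h2, h3⟩
          exact ⟨hall d (mem_sep.2 ⟨h2, h3⟩), h3⟩
        · rintro ⟨h2, h3⟩
          exact ⟨hsub h2, h3⟩
      have h2 := card_sep hA W
      rw [h1, hW'] at h2
      have h3 : (G.cut A W).card = 1 := by omega
      obtain ⟨d, hd⟩ := card_eq_one.1 h3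
      have h4 : d ∈ G.cut A W := by rw [hd]; exact mem_singleton_self d
      rw [mem_cut] at h4
      exact hn d (hall d (mem_sep.2 ⟨h4.1, by tauto⟩)) ⟨W, hd⟩
    · push Not at hall
      obtain ⟨b, hb1, hb2⟩ := hall
      rw [mem_sep] at hb1
      obtain ⟨Wb, hWb⟩ := hb b hb1.1 hb2
      have hbb : b ∈ G.cut A Wb := by rw [hWb]; exact mem_singleton_self b
      rw [mem_cut] at hbb
      have key : ∀ c ∈ A, (¬ (G.src c ∈ symmDiff W Wb ↔ G.tgt c ∈ symmDiff W Wb)) ↔
          ((¬ (G.src c ∈ W ↔ G.tgt c ∈ W)) ∧ c ≠ b ∧ c ≠ G.inv b) := by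
        intro c hc
        rw [mem_symmDiff, mem_symmDiff]
        by_cases h1 : c = b
        · subst h1
          tauto
        by_cases h2 : c = G.inv b
        · subst h2
          rw [src_inv, tgt_inv]
          tauto
        have h3 := side_of_cut hA hWb hc h1 h2
        tauto
      have e1 : sep G A (symmDiff W Wb) = sep G A W \ {b, G.inv b} := by
        ext c
        rw [mem_sep, mem_sdiff, mem_sep, mem_insert, mem_singleton]
        constructor
        · rintro ⟨h1, h2⟩
          rw [key c h1] at h2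
          tauto
        · rintro ⟨⟨h1, h2⟩, h3⟩
          refine ⟨h1, (key c h1).2 ?_⟩
          tauto
      have e2 : sep G A' (symmDiff W Wb) = sep G A' W := by
        ext c
        rw [mem_sep, mem_sep]
        constructor
        · rintro ⟨h1, h2⟩
          rw [key c (hsub h1)] at h2
          tauto
        · rintro ⟨h1, h2⟩
          refine ⟨h1, (key c (hsub h1)).2 ⟨h2, ?_, ?_⟩⟩
          · rintro rfl
            exact hb2 h1
          · rintro rfl
            exact hb2 (hA'.mem_iff.1 h1)
      refine ih (sep G A (symmDiff W Wb)).card ?_ (symmDiff W Wb) rfl (by rw [e2, hW'])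
      rw [← hW, e1]
      apply card_lt_card
      refine ⟨sdiff_subset, fun h => ?_⟩
      have := h (mem_sep.2 hb1)
      rw [mem_sdiff] at this
      exact this.2 (mem_insert_self _ _)

theorem t_core : T_CORE := by
  intro V D _ _ G A hA
  refine ⟨sel A fun d => ¬ ∃ W, G.cut A W = {d}, sel_sub _ _, ?_, ?_, ?_⟩
  · intro d hd
    rw [mem_sel] at hd ⊢
    refine ⟨hA _ hd.1, ?_⟩
    rintro ⟨W, hW⟩
    apply hd.2
    refine ⟨Wᶜ, ?_⟩
    ext c
    rw [mem_cut_compl hA, hW, mem_singleton, mem_singleton]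
    exact ⟨inv_inj, fun h => by rw [h]⟩
  · have hcl : G.Cl (sel A fun d => ¬ ∃ W, G.cut A W = {d}) := by
      intro d hd
      rw [mem_sel] at hd ⊢
      refine ⟨hA _ hd.1, ?_⟩
      rintro ⟨W, hW⟩
      apply hd.2
      refine ⟨Wᶜ, ?_⟩
      ext c
      rw [mem_cut_compl hA, hW, mem_singleton, mem_singleton]
      exact ⟨inv_inj, fun h => by rw [h]⟩
    intro W hW
    refine core_aux hA hcl (sel_sub _ _) ?_ ?_ _ W rfl ?_
    · intro d hd hd'
      by_contra h
      exact hd' (mem_sel.2 ⟨hd, h⟩)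
    · intro d hd
      exact (mem_sel.1 hd).2
    · rw [card_sep hcl, hW]
  · intro d hd hd'
    by_contra h
    exact hd' (mem_sel.2 ⟨hd, h⟩)

end Pool.Agent.H11.OC
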