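import Pool.Agent.H69.OC.Targets

set_option autoImplicit false
set_option linter.unusedSectionVars false
open scoped Classical
open Finset

namespace Pool.Agent.H11.OC

open Pool.Agent.H69.OC Pool.Agent.H69.OC.DG

variable {V D : Type} [Fintype V] [Fintype D] {G : DG V D}

/-- relabelling by an injection -/
theorem bal_comp {A : Finset D} {f : D → ℕ} {v : V} (h : G.BalAt A f v) {τ : ℕ → ℕ}
    (hτ : Function.Injective τ) : G.BalAt A (fun d => τ (f d)) v := by
  intro k
  by_cases hk : ∃ j, τ j = k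
  · obtain ⟨j, rfl⟩ := hk
    have h1 := h j
    have e1 : (sel A fun d => G.src d = v ∧ τ (f d) = τ j) =
        sel A fun d => G.src d = v ∧ f d = j := by
      apply sel_congr
      intro d
      rw [hτ.eq_iff]
    have e2 : (sel A fun d => G.src d = v ∧ τ (f (G.inv d)) = τ j) =
        sel A fun d => G.src d = v ∧ f (G.inv d) = j := by
      apply sel_congr
      intro d
      rw [hτ.eq_iff]
    rw [e1, e2, h1]
  · push Not at hk
    have e1 : (sel A fun d => G.src d = v ∧ τ (f d) = k) = ∅ := by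
      ext d
      rw [mem_sel]
      constructor
      · rintro ⟨_, _, h2⟩
        exact absurd h2 (hk _)
      · intro h2
        exact absurd h2 (notMem_empty _)
    have e2 : (sel A fun d => G.src d = v ∧ τ (f (G.inv d)) = k) = ∅ := by
      ext d
      rw [mem_sel]
      constructor
      · rintro ⟨_, _, h2⟩
        exact absurd h2 (hk _)
      · intro h2
        exact absurd h2 (notMem_empty _)
    rw [e1, e2]

/-- reversal of all cycles -/
theorem bal_rev {A : Finset D} {f : D → ℕ} {v : V} (h : G.BalAt A f v) :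
    G.BalAt A (fun d => f (G.inv d)) v := by
  intro k
  simp only [G.inv_inv]
  exact (h k).symm

theorem cov_rev {A : Finset D} {f : D → ℕ} (h : G.Cov A f) :
    G.Cov A (fun d => f (G.inv d)) := by
  refine ⟨fun d hd => ?_, fun v => bal_rev (h.2 v)⟩
  simp only [G.inv_inv]
  exact (h.1 d hd).symm

/-- labels at `v` only depend on the values near `v` -/
theorem bal_congr {A B : Finset D} {f g : D → ℕ} {v : V}
    (hAB : ∀ d, G.src d = v → (d ∈ A ↔ d ∈ B))
    (hfg : ∀ d ∈ A, G.src d = v → f d = g d ∧ f (G.inv d) = g (G.inv d))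
    (h : G.BalAt A f v) : G.BalAt B g v := by
  intro k
  have e1 : (sel B fun d => G.src d = v ∧ g d = k) = sel A fun d => G.src d = v ∧ f d = k := by
    apply sel_congr
    intro d
    constructor
    · rintro ⟨h1, h2, h3⟩
      have h4 := (hAB d h2).2 h1
      exact ⟨h4, h2, by rw [(hfg d h4 h2).1, h3]⟩
    · rintro ⟨h1, h2, h3⟩
      exact ⟨(hAB d h2).1 h1, h2, by rw [← (hfg d h1 h2).1, h3]⟩
  have e2 : (sel B fun d => G.src d = v ∧ g (G.inv d) = k) =
      sel A fun d => G.src d = v ∧ f (G.inv d) = k := by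
    apply sel_congr
    intro d
    constructor
    · rintro ⟨h1, h2, h3⟩
      have h4 := (hAB d h2).2 h1
      exact ⟨h4, h2, by rw [(hfg d h4 h2).2, h3]⟩
    · rintro ⟨h1, h2, h3⟩
      exact ⟨(hAB d h2).1 h1, h2, by rw [← (hfg d h1 h2).2, h3]⟩
  rw [e1, e2]
  exact h k

/-- **gluing** of covers along a cut -/
theorem glue (W : Finset V) (f g : D → ℕ) (hf : ∀ v ∈ W, G.BalAt univ f v)
    (hg : ∀ v ∈ Wᶜ, G.BalAt univ g v) (hf2 : ∀ d, G.Tc W d → f d ≠ f (G.inv d))
    (hg2 : ∀ d, G.Tc Wᶜ d → g d ≠ g (G.inv d))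
    (hfg : ∀ d ∈ G.cut univ W, f d = g d ∧ f (G.inv d) = g (G.inv d)) :
    ∃ lam, G.Cov univ lam := by
  have hag : ∀ d, G.Tc W d → G.Tc Wᶜ d → f d = g d := by
    intro d h1 h2
    unfold Tc at h1 h2
    rw [mem_compl, mem_compl] at h2
    by_cases h3 : G.src d ∈ W
    · have h4 : d ∈ G.cut univ W := mem_cut.2 ⟨mem_univ _, h3, by tauto⟩
      exact (hfg d h4).1
    · have h4 : G.inv d ∈ G.cut univ W := mem_cut.2 ⟨mem_univ _, by rw [src_inv]; tauto, by
        rw [tgt_inv]; exact h3⟩
      have := (hfg _ h4).2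
      rwa [G.inv_inv] at this
  refine ⟨fun d => if G.Tc W d then f d else g d, fun d _ => ?_, fun v => ?_⟩
  · simp only [tc_inv]
    by_cases h : G.Tc W d
    · rw [if_pos h, if_pos h]
      exact hf2 d h
    · rw [if_neg h, if_neg h]
      apply hg2
      unfold Tc at h ⊢
      rw [mem_compl, mem_compl]
      tauto
  · by_cases hv : v ∈ W
    · refine bal_congr (fun d _ => Iff.rfl) (fun d _ hd => ?_) (hf v hv)
      have h : G.Tc W d := Or.inl (by rw [hd]; exact hv)
      simp only [tc_inv]
      rw [if_pos h, if_pos h]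
      exact ⟨rfl, rfl⟩
    · refine bal_congr (fun d _ => Iff.rfl) (fun d _ hd => ?_) (hg v (mem_compl.2 hv))
      have h2 : G.Tc Wᶜ d := Or.inl (by rw [hd]; exact mem_compl.2 hv)
      simp only [tc_inv]
      by_cases h : G.Tc W d
      · rw [if_pos h, if_pos h]
        exact ⟨(hag d h h2).symm, (hag (G.inv d) (tc_inv.2 h) (tc_inv.2 h2)).symm⟩
      · rw [if_neg h, if_neg h]
        exact ⟨rfl, rfl⟩

/-- extension of a finite injection -/
theorem exists_tau {n : ℕ} (a b : Fin n → ℕ) (ha : Function.Injective a)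
    (hb : Function.Injective b) : ∃ τ : ℕ → ℕ, Function.Injective τ ∧ ∀ i, τ (a i) = b i := by
  refine ⟨fun k => if h : ∃ i, a i = k then b h.choose else k + (∑ i, b i) + 1, ?_, ?_⟩
  · intro k l hkl
    dsimp only at hkl
    have hle : ∀ i, b i ≤ ∑ i, b i := fun i => single_le_sum (f := b) (fun _ _ => Nat.zero_le _)
      (mem_univ i)
    split_ifs at hkl with h1 h2 h2
    · have := hb hkl
      rw [← h1.choose_spec, ← h2.choose_spec, this]
    · have := hle h1.choose
      omega
    · have := hle h2.choose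
      omega
    · omega
  · intro i
    have h : ∃ j, a j = a i := ⟨i, rfl⟩
    dsimp only
    rw [dif_pos h]
    congr 1
    exact ha h.choose_spec

theorem card_sel_two {x y : D} (hxy : x ≠ y) (q : D → Prop) :
    (sel {x, y} q).card = (if q x then 1 else 0) + (if q y then 1 else 0) := by
  have : sel {x, y} q = (if q x then {x} else ∅) ∪ (if q y then {y} else ∅) := by
    ext d
    rw [mem_sel, mem_insert, mem_singleton, mem_union]
    constructor
    · rintro ⟨rfl | rfl, h⟩
      · left
        rw [if_pos h]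
        exact mem_singleton_self _
      · right
        rw [if_pos h]
        exact mem_singleton_self _
    · intro h
      split_ifs at h with h1 h2 h2 <;> simp only [mem_singleton, notMem_empty, or_false,
        false_or] at h
      · rcases h with rfl | rfl
        · exact ⟨Or.inl rfl, h1⟩
        · exact ⟨Or.inr rfl, h2⟩
      · subst h
        exact ⟨Or.inl rfl, h1⟩
      · subst h
        exact ⟨Or.inr rfl, h2⟩
  rw [this, card_union_of_disjoint]
  · split_ifs <;> simp
  · split_ifs <;> simp [hxy]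

theorem card_sel_three {x y z : D} (hxy : x ≠ y) (hxz : x ≠ z) (hyz : y ≠ z) (q : D → Prop) :
    (sel {x, y, z} q).card = (if q x then 1 else 0) + (if q y then 1 else 0) +
      (if q z then 1 else 0) := by
  have : sel {x, y, z} q = sel {x, y} q ∪ (if q z then {z} else ∅) := by
    ext d
    rw [mem_sel, mem_union, mem_sel]
    simp only [mem_insert, mem_singleton]
    constructor
    · rintro ⟨rfl | rfl | rfl, h⟩
      · exact Or.inl ⟨Or.inl rfl, h⟩
      · exact Or.inl ⟨Or.inr rfl, h⟩
      · right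
        rw [if_pos h]
        exact mem_singleton_self _
    · rintro (⟨h1, h2⟩ | h)
      · exact ⟨by tauto, h2⟩
      · split_ifs at h with h1
        · rw [mem_singleton] at h
          subst h
          exact ⟨by tauto, h1⟩
        · exact absurd h (notMem_empty _)
  rw [this, card_union_of_disjoint, card_sel_two hxy]
  · congr 1
    split_ifs <;> simp
  · rw [disjoint_left]
    intro d h1 h2
    rw [mem_sel, mem_insert, mem_singleton] at h1
    split_ifs at h2 with h3
    · rw [mem_singleton] at h2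
      subst h2
      rcases h1.1 with h | h
      · exact hxz h.symm
      · exact hyz h.symm
    · exact absurd h2 (notMem_empty _)

/-- labels on a balanced cut with two edges -/
theorem two_labels {a1 a2 b1 b2 : ℕ} (h1 : a1 ≠ b1) (h2 : a2 ≠ b2)
    (h : ∀ k, (if a1 = k then 1 else 0) + (if a2 = k then 1 else 0) =
      (if b1 = k then 1 else 0) + (if b2 = k then 1 else 0)) : b2 = a1 ∧ b1 = a2 ∧ a1 ≠ a2 := by
  have e1 := h a1
  have e2 := h a2
  rw [if_pos rfl] at e1
  rw [if_pos rfl] at e2
  rw [if_neg (Ne.symm h1)] at e1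
  rw [if_neg (Ne.symm h2)] at e2
  have e3 : b2 = a1 := by
    by_contra hne
    rw [if_neg hne] at e1
    split_ifs at e1 <;> omega
  have e4 : b1 = a2 := by
    by_contra hne
    rw [if_neg hne] at e2
    split_ifs at e2 <;> omega
  exact ⟨e3, e4, fun h5 => h2 (by rw [e3, h5])⟩

/-- labels on a balanced cut with three edges -/
theorem three_labels {a1 a2 a3 b1 b2 b3 : ℕ} (h1 : a1 ≠ b1) (h2 : a2 ≠ b2) (h3 : a3 ≠ b3)
    (h : ∀ k, (if a1 = k then 1 else 0) + (if a2 = k then 1 else 0) + (if a3 = k then 1 else 0) =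
      (if b1 = k then 1 else 0) + (if b2 = k then 1 else 0) + (if b3 = k then 1 else 0)) :
    a1 ≠ a2 ∧ a1 ≠ a3 ∧ a2 ≠ a3 ∧
      ((b1 = a2 ∧ b2 = a3 ∧ b3 = a1) ∨ (b1 = a3 ∧ b2 = a1 ∧ b3 = a2)) := by
  have e1 := h a1
  have e2 := h a2
  have e3 := h a3
  rw [if_pos rfl, if_neg (Ne.symm h1)] at e1
  have h12 : a1 ≠ a2 := by
    intro hh
    subst hh
    rw [if_neg (Ne.symm h2)] at e1
    split_ifs at e1 <;> omega
  have h13 : a1 ≠ a3 := by
    intro hh
    subst hh
    rw [if_neg (Ne.symm h3)] at e1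
    split_ifs at e1 <;> omega
  have h23 : a2 ≠ a3 := by
    intro hh
    subst hh
    rw [if_neg (Ne.symm h2), if_neg (Ne.symm h3)] at e2
    split_ifs at e2 <;> omega
  refine ⟨h12, h13, h23, ?_⟩
  rw [if_neg (Ne.symm h12), if_neg (Ne.symm h13)] at e1
  rw [if_neg h12, if_pos rfl, if_neg (Ne.symm h23), if_neg (Ne.symm h2)] at e2
  rw [if_neg h13, if_neg h23, if_pos rfl, if_neg (Ne.symm h3)] at e3
  split_ifs at e1 e2 e3 <;> omega

/-- deleting one edge -/
theorem card_cut_del (e : D) (Z : Finset V) :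
    (G.cut univ Z).card ≤ (G.cut (univ \ {e, G.inv e}) Z).card + 1 := by
  have h1 : G.cut univ Z ⊆ G.cut (univ \ {e, G.inv e}) Z ∪
      (if e ∈ G.cut univ Z then {e} else {G.inv e}) := by
    intro d hd
    rw [mem_union]
    by_cases h2 : d = e
    · right
      rw [if_pos (h2 ▸ hd), mem_singleton]
      exact h2
    · by_cases h3 : d = G.inv e
      · right
        rw [if_neg, mem_singleton]
        · exact h3
        · intro h4
          rw [mem_cut] at hd h4
          rw [h3, src_inv, tgt_inv] at hd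
          exact h4.2.2 hd.2.1
      · left
        rw [mem_cut] at hd ⊢
        refine ⟨mem_sdiff.2 ⟨mem_univ _, ?_⟩, hd.2⟩
        rw [mem_insert, mem_singleton]
        tauto
  refine (card_le_card h1).trans ((card_union_le _ _).trans ?_)
  apply Nat.add_le_add_left
  split_ifs <;> simp

theorem cut_del_eq {e : D} {Z : Finset V} (h1 : e ∉ G.cut univ Z) (h2 : G.inv e ∉ G.cut univ Z) :
    G.cut (univ \ {e, G.inv e}) Z = G.cut univ Z := by
  ext d
  rw [mem_cut, mem_cut]
  constructor
  · rintro ⟨_, h⟩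
    exact ⟨mem_univ _, h⟩
  · rintro ⟨_, h⟩
    refine ⟨mem_sdiff.2 ⟨mem_univ _, ?_⟩, h⟩
    rw [mem_insert, mem_singleton]
    rintro (rfl | rfl)
    · exact h1 (mem_cut.2 ⟨mem_univ _, h⟩)
    · exact h2 (mem_cut.2 ⟨mem_univ _, h⟩)

/-- a dart inside `W` -/
theorem exists_inner (hG : G.Cub) (W : Finset V) (h : (G.cut univ W).card < 3 * W.card) :
    ∃ g, G.src g ∈ W ∧ G.tgt g ∈ W := by
  by_contra hno
  push Not at hno
  have h1 : (sel univ fun d => G.src d ∈ W).card = 3 * W.card := by
    have h := sum_deg (G := G) univ (fun _ => True) W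
    simp only [and_true] at h
    rw [← h, sum_congr rfl fun v _ => hG v, sum_const, smul_eq_mul, mul_comm]
  have h2 : (sel univ fun d => G.src d ∈ W) ⊆ G.cut univ W := by
    intro d hd
    rw [mem_sel] at hd
    exact mem_cut.2 ⟨mem_univ _, hd.2, hno d hd.2⟩
  have := card_le_card h2
  omega

/-- a cover of the graph minus an edge outside `W` is correct on `W` -/
theorem cov_del {e : D} {W : Finset V} (h1 : G.src e ∉ W) (h2 : G.tgt e ∉ W) {lam : D → ℕ}
    (h : G.Cov (univ \ {e, G.inv e}) lam) : (∀ v ∈ W, G.BalAt univ lam v) ∧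
      ∀ d, G.Tc W d → lam d ≠ lam (G.inv d) := by
  have hmem : ∀ d, G.Tc W d → d ∈ (univ \ {e, G.inv e} : Finset D) := by
    intro d hd
    rw [mem_sdiff, mem_insert, mem_singleton]
    refine ⟨mem_univ _, ?_⟩
    unfold Tc at hd
    rintro (rfl | rfl)
    · tauto
    · rw [src_inv, tgt_inv] at hd
      tauto
  refine ⟨fun v hv => ?_, fun d hd => h.1 d (hmem d hd)⟩
  refine bal_congr (fun d hd => ?_) (fun d _ _ => ⟨rfl, rfl⟩) (h.2 v)
  exact ⟨fun _ => mem_univ _, fun _ => hmem d (Or.inl (by rw [hd]; exact hv))⟩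

end Pool.Agent.H11.OC
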