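import Pool.Agent.H11.OC.Glue

set_option autoImplicit false
set_option linter.unusedSectionVars false
open scoped Classical
open Finset

namespace Pool.Agent.H11.OC

open Pool.Agent.H69.OC Pool.Agent.H69.OC.DG

variable {V D : Type} [Fintype V] [Fintype D] {G : DG V D}

theorem compl_ne_univ {W : Finset V} (h : W.Nonempty) : Wᶜ ≠ univ := by
  intro h2
  rw [compl_eq_univ_iff] at h2
  rw [h2] at h
  exact not_nonempty_empty h

theorem compl_nonempty {W : Finset V} (h : W ≠ univ) : Wᶜ.Nonempty := by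
  rw [nonempty_iff_ne_empty, Ne, compl_eq_empty_iff]
  exact h

/-- disconnected graphs: one side -/
theorem side0 (hG : G.Cub) (hBL : G.BL univ) (hIH : G.IH) (W : Finset V) (hu : W ≠ univ)
    (hcut : (G.cut univ W).card = 0) : ∃ f, (∀ v ∈ W, G.BalAt univ f v) ∧
      ∀ d, G.Tc W d → f d ≠ f (G.inv d) := by
  rw [card_eq_zero] at hcut
  have hside : ∀ d, G.src d ∈ W → G.tgt d ∈ W := by
    intro d hd
    by_contra h
    have : d ∈ G.cut univ W := mem_cut.2 ⟨mem_univ _, hd, h⟩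
    rw [hcut] at this
    exact absurd this (notMem_empty _)
  have hcl : G.Cl (sel univ fun d => G.src d ∈ W) := by
    intro d hd
    rw [mem_sel] at hd ⊢
    exact ⟨mem_univ _, hside d hd.2⟩
  have hne : (sel univ fun d => G.src d ∈ W) ≠ univ := by
    intro h
    obtain ⟨v, hv⟩ := compl_nonempty hu
    have h1 := hG v
    have h2 : (sel univ fun d => G.src d = v).Nonempty := card_pos.1 (by omega)
    obtain ⟨d, hd⟩ := h2
    rw [mem_sel] at hd
    have h3 : d ∈ sel univ fun d => G.src d ∈ W := by rw [h]; exact mem_univ _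
    rw [mem_sel] at h3
    rw [mem_compl] at hv
    exact hv (hd.2 ▸ h3.2)
  have hbl : G.BL (sel univ fun d => G.src d ∈ W) := by
    intro Z hZ
    refine hBL (Z ∩ W) ?_
    rw [← hZ]
    congr 1
    ext d
    rw [mem_cut, mem_cut, mem_sel, mem_inter, mem_inter]
    have := hside d
    tauto
  obtain ⟨f, hf⟩ := hIH _ hcl hne hbl
  refine ⟨f, fun v hv => ?_, fun d hd => hf.1 d ?_⟩
  · refine bal_congr (fun d hd => ?_) (fun d _ _ => ⟨rfl, rfl⟩) (hf.2 v)
    exact ⟨fun _ => mem_univ _, fun _ => mem_sel.2 ⟨mem_univ _, by rw [hd]; exact hv⟩⟩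
  · rcases hd with hd | hd
    · exact mem_sel.2 ⟨mem_univ _, hd⟩
    · have h1 := hside (G.inv d) (by rw [src_inv]; exact hd)
      rw [tgt_inv] at h1
      exact mem_sel.2 ⟨mem_univ _, h1⟩

theorem cov0 (hG : G.Cub) (hBL : G.BL univ) (hIH : G.IH) (W : Finset V) (hne : W.Nonempty)
    (hu : W ≠ univ) (hcut : (G.cut univ W).card = 0) : ∃ lam, G.Cov univ lam := by
  obtain ⟨f, f1, f2⟩ := side0 hG hBL hIH W hu hcut
  obtain ⟨g, g1, g2⟩ := side0 hG hBL hIH Wᶜ (compl_ne_univ hne) (by rw [cut_compl cl_univ, hcut])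
  refine glue W f g f1 g1 f2 g2 ?_
  intro d hd
  rw [card_eq_zero] at hcut
  rw [hcut] at hd
  exact absurd hd (notMem_empty _)

/-- an edge in `W` which can be deleted -/
theorem exists_del (hG : G.Cub)
    (h2 : ∀ Z : Finset V, Z.Nonempty → Z ≠ univ → 2 ≤ (G.cut univ Z).card)
    (W : Finset V) (hne : W.Nonempty) (hu : W ≠ univ) (hcut : (G.cut univ W).card = 2) :
    ∃ g, G.src g ∈ W ∧ G.tgt g ∈ W ∧ G.BL (univ \ {g, G.inv g}) := by
  -- minimal set
  obtain ⟨W0, ⟨hW0, hne0, hc0⟩, hmin⟩ : ∃ W0 : Finset V, (W0 ⊆ W ∧ W0.Nonempty ∧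
      (G.cut univ W0).card = 2) ∧ ∀ Z : Finset V, Z ⊂ W0 → Z.Nonempty →
        (G.cut univ Z).card ≠ 2 := by
    have hex : ∃ n, ∃ W0 : Finset V, W0 ⊆ W ∧ W0.Nonempty ∧ (G.cut univ W0).card = 2 ∧
        W0.card = n := ⟨_, W, Subset.refl _, hne, hcut, rfl⟩
    obtain ⟨W0, h1, h3, h4, h5⟩ := Nat.find_spec hex
    refine ⟨W0, ⟨h1, h3, h4⟩, fun Z hZ hZ2 hZ3 => ?_⟩
    exact Nat.find_min hex (by rw [← h5]; exact card_lt_card hZ)
      ⟨Z, hZ.1.trans h1, hZ2, hZ3, rfl⟩
  have hu0 : W0 ≠ univ := by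
    rintro rfl
    exact hu (univ_subset_iff.1 hW0)
  have hpos : 0 < W0.card := card_pos.2 hne0
  obtain ⟨g, hg, hg'⟩ := exists_inner hG W0 (by omega)
  refine ⟨g, hW0 hg, hW0 hg', ?_⟩
  -- the main claim
  have key : ∀ Z : Finset V, (G.cut univ Z).card = 2 → G.src g ∈ Z → G.tgt g ∉ Z → False := by
    intro Z hZ hgZ hgZ'
    by_cases hun : Z ∪ W0 = univ
    · have h3 := cut_posimod (G := G) cl_univ Z W0
      have n1 : (Z \ W0).Nonempty := by
        obtain ⟨v, hv⟩ := compl_nonempty hu0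
        rw [mem_compl] at hv
        have : v ∈ Z ∪ W0 := by rw [hun]; exact mem_univ _
        rw [mem_union] at this
        exact ⟨v, mem_sdiff.2 ⟨by tauto, hv⟩⟩
      have n2 : Z \ W0 ≠ univ := by
        intro h
        obtain ⟨v, hv⟩ := hne0
        have : v ∈ Z \ W0 := by rw [h]; exact mem_univ _
        rw [mem_sdiff] at this
        exact this.2 hv
      have n3 : (W0 \ Z).Nonempty := ⟨_, mem_sdiff.2 ⟨hg', hgZ'⟩⟩
      have n4 : W0 \ Z ≠ univ := by
        intro h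
        have : G.src g ∈ W0 \ Z := by rw [h]; exact mem_univ _
        rw [mem_sdiff] at this
        exact this.2 hgZ
      have h4 := h2 _ n1 n2
      have h5 := h2 _ n3 n4
      refine hmin (W0 \ Z) ⟨sdiff_subset, fun h => ?_⟩ n3 (by omega)
      have := h hg
      rw [mem_sdiff] at this
      exact this.2 hgZ
    · have h3 := cut_submod (G := G) univ Z W0
      have n1 : (Z ∩ W0).Nonempty := ⟨_, mem_inter.2 ⟨hgZ, hg⟩⟩
      have n2 : Z ∩ W0 ≠ univ := by
        intro h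
        have : G.tgt g ∈ Z ∩ W0 := by rw [h]; exact mem_univ _
        rw [mem_inter] at this
        exact hgZ' this.1
      have n3 : (Z ∪ W0).Nonempty := ⟨_, mem_union_left _ hgZ⟩
      have h4 := h2 _ n1 n2
      have h5 := h2 _ n3 hun
      refine hmin (Z ∩ W0) ⟨inter_subset_right, fun h => ?_⟩ n1 (by omega)
      have := h hg'
      rw [mem_inter] at this
      exact hgZ' this.1
  intro Z hZ
  have hZne : Z.Nonempty := by
    rw [nonempty_iff_ne_empty]
    rintro rfl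
    rw [cut_empty_eq, card_empty] at hZ
    exact absurd hZ (by norm_num)
  have hZu : Z ≠ univ := by
    rintro rfl
    rw [cut_univ_eq, card_empty] at hZ
    exact absurd hZ (by norm_num)
  have h3 := h2 Z hZne hZu
  have h4 := card_cut_del (G := G) g Z
  by_cases h5 : g ∈ G.cut univ Z
  · rw [mem_cut] at h5
    exact key Z (by omega) h5.2.1 h5.2.2
  · by_cases h6 : G.inv g ∈ G.cut univ Z
    · have h7 := (mem_cut_compl (G := G) cl_univ (W := Z) (d := g)).2 h6
      rw [mem_cut] at h7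
      exact key Zᶜ (by rw [cut_compl cl_univ]; omega) h7.2.1 h7.2.2
    · rw [cut_del_eq h5 h6] at hZ
      omega

/-- labels on a cut with two edges -/
theorem cut2_labels {W : Finset V} {f : D → ℕ} (hf : ∀ v ∈ W, G.BalAt univ f v)
    (hf2 : ∀ d, G.Tc W d → f d ≠ f (G.inv d)) {x y : D} (hxy : x ≠ y)
    (hcut : G.cut univ W = {x, y}) :
    f (G.inv y) = f x ∧ f (G.inv x) = f y ∧ f x ≠ f y := by
  have hc : ∀ d, d ∈ G.cut univ W → f d ≠ f (G.inv d) := by
    intro d hd
    rw [mem_cut] at hd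
    exact hf2 d (Or.inl hd.2.1)
  have h := stokes (G := G) cl_univ hf
  rw [hcut] at hc h
  exact two_labels (hc x (by simp)) (hc y (by simp))
    (fun k => by
      have := h k
      rw [card_sel_two hxy, card_sel_two hxy] at this
      convert this)

theorem t_r2 : T_R2 := by
  intro V D _ _ G hG hBL hIH W hne hu hcut
  by_cases h0 : ∃ Z : Finset V, Z.Nonempty ∧ Z ≠ univ ∧ (G.cut univ Z).card = 0
  · obtain ⟨Z, h1, h2, h3⟩ := h0
    exact cov0 hG hBL hIH Z h1 h2 h3
  push Not at h0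
  have h2 : ∀ Z : Finset V, Z.Nonempty → Z ≠ univ → 2 ≤ (G.cut univ Z).card := by
    intro Z h3 h4
    have h5 := h0 Z h3 h4
    have h6 := hBL Z
    omega
  have hc2 : (G.cut univ W).card = 2 := le_antisymm hcut (h2 W hne hu)
  have hc2' : (G.cut univ Wᶜ).card = 2 := by rw [cut_compl cl_univ, hc2]
  obtain ⟨g1, hg1, hg1', hb1⟩ := exists_del hG h2 W hne hu hc2
  obtain ⟨g2, hg2, hg2', hb2⟩ := exists_del hG h2 Wᶜ (compl_nonempty hu) (compl_ne_univ hne) hc2'
  have nu : ∀ e : D, (univ \ {e, G.inv e} : Finset D) ≠ univ := by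
    intro e h
    have : e ∈ (univ \ {e, G.inv e} : Finset D) := by rw [h]; exact mem_univ _
    rw [mem_sdiff] at this
    exact this.2 (mem_insert_self _ _)
  obtain ⟨f, hf⟩ := hIH _ (cl_sdiff_pair cl_univ g2) (nu g2) hb2
  obtain ⟨g, hg⟩ := hIH _ (cl_sdiff_pair cl_univ g1) (nu g1) hb1
  obtain ⟨x, y, hxy, hxy2⟩ := card_eq_two.1 hc2
  obtain ⟨f1, f2⟩ := cov_del (W := W) (mem_compl.1 hg2) (mem_compl.1 hg2') hf
  obtain ⟨g3, g4⟩ := cov_del (W := Wᶜ) (by rw [mem_compl, not_not]; exact hg1)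
    (by rw [mem_compl, not_not]; exact hg1') hg
  obtain ⟨k1, k2, k3⟩ := cut2_labels f1 f2 hxy hxy2
  have hcut' : G.cut univ Wᶜ = {G.inv x, G.inv y} := by
    ext d
    rw [mem_cut_compl cl_univ, hxy2]
    simp only [mem_insert, mem_singleton, inv_eq_iff]
  obtain ⟨l1, l2, l3⟩ := cut2_labels g3 g4 (fun h => hxy (inv_inj h)) hcut'
  rw [G.inv_inv] at l1 l2
  obtain ⟨τ, hτ, hτ2⟩ := exists_tau ![g x, g y] ![f x, f y]
    (by
      intro i j hij
      fin_cases i <;> fin_cases j <;> simp_all)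
    (by
      intro i j hij
      fin_cases i <;> fin_cases j <;> simp_all)
  have t0 : τ (g x) = f x := hτ2 0
  have t1 : τ (g y) = f y := hτ2 1
  refine glue W f (fun d => τ (g d)) f1 (fun v hv => bal_comp (g3 v hv) hτ) f2
    (fun d hd h => g4 d hd (hτ h)) ?_
  intro d hd
  rw [hxy2, mem_insert, mem_singleton] at hd
  rcases hd with rfl | rfl
  · exact ⟨t0.symm, by rw [k2, ← t1, l1]⟩
  · exact ⟨t1.symm, by rw [k1, ← t0, l2]⟩

end Pool.Agent.H11.OC
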