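import Pool.Agent.H11.OC.Glue

set_option autoImplicit false
set_option linter.unusedSectionVars false
open scoped Classical
open Finset

namespace Pool.Agent.H11.OC

open Pool.Agent.H69.OC Pool.Agent.H69.OC.DG

variable {V D : Type} [Fintype V] [Fintype D] {G : DG V D}

theorem ne_univ_of_pair (e : D) : (univ \ {e, G.inv e} : Finset D) ≠ univ := by
  intro h
  have : e ∈ (univ \ {e, G.inv e} : Finset D) := by rw [h]; exact mem_univ _
  rw [mem_sdiff] at this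
  exact this.2 (mem_insert_self _ _)

/-- deleting any edge of a graph with `C3` gives a graph without cut edges -/
theorem bl_del (h3 : G.C3) (e : D) : G.BL (univ \ {e, G.inv e}) := by
  intro Z hZ
  rcases Z.eq_empty_or_nonempty with h | h
  · rw [h, cut_empty_eq, card_empty] at hZ
    exact absurd hZ (by norm_num)
  · by_cases hu : Z = univ
    · rw [hu, cut_univ_eq, card_empty] at hZ
      exact absurd hZ (by norm_num)
    · have h1 := h3 Z h hu
      have h2 := card_cut_del (G := G) e Z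
      omega

/-- gluing along a cut with three edges -/
theorem glue3 (W : Finset V) (f g : D → ℕ) (hf : ∀ v ∈ W, G.BalAt univ f v)
    (hg : ∀ v ∈ Wᶜ, G.BalAt univ g v) (hf2 : ∀ d, G.Tc W d → f d ≠ f (G.inv d))
    (hg2 : ∀ d, G.Tc Wᶜ d → g d ≠ g (G.inv d)) (x y z : D) (hxy : x ≠ y) (hxz : x ≠ z)
    (hyz : y ≠ z) (hcut : G.cut univ W = {x, y, z})
    (hfg : (f (G.inv x) = f y ∧ f (G.inv y) = f z ∧ f (G.inv z) = f x ∧
        g (G.inv x) = g y ∧ g (G.inv y) = g z ∧ g (G.inv z) = g x) ∨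
      (f (G.inv x) = f z ∧ f (G.inv y) = f x ∧ f (G.inv z) = f y ∧
        g (G.inv x) = g z ∧ g (G.inv y) = g x ∧ g (G.inv z) = g y))
    (hf3 : f x ≠ f y ∧ f x ≠ f z ∧ f y ≠ f z) (hg3 : g x ≠ g y ∧ g x ≠ g z ∧ g y ≠ g z) :
    ∃ lam, G.Cov univ lam := by
  obtain ⟨τ, hτ, hτ2⟩ := exists_tau ![g x, g y, g z] ![f x, f y, f z]
    (by
      intro i j hij
      fin_cases i <;> fin_cases j <;> simp_all)
    (by
      intro i j hij
      fin_cases i <;> fin_cases j <;> simp_all)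
  have t0 : τ (g x) = f x := hτ2 0
  have t1 : τ (g y) = f y := hτ2 1
  have t2 : τ (g z) = f z := hτ2 2
  refine glue W f (fun d => τ (g d)) hf (fun v hv => bal_comp (hg v hv) hτ) hf2
    (fun d hd h => hg2 d hd (hτ h)) ?_
  intro d hd
  rw [hcut, mem_insert, mem_insert, mem_singleton] at hd
  rcases hfg with ⟨k1, k2, k3, k4, k5, k6⟩ | ⟨k1, k2, k3, k4, k5, k6⟩
  · rcases hd with rfl | rfl | rfl
    · exact ⟨t0.symm, by rw [k1, k4, t1]⟩
    · exact ⟨t1.symm, by rw [k2, k5, t2]⟩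
    · exact ⟨t2.symm, by rw [k3, k6, t0]⟩
  · rcases hd with rfl | rfl | rfl
    · exact ⟨t0.symm, by rw [k1, k4, t2]⟩
    · exact ⟨t1.symm, by rw [k2, k5, t0]⟩
    · exact ⟨t2.symm, by rw [k3, k6, t1]⟩

/-- labels on a cut with three edges -/
theorem cut3_labels {W : Finset V} {f : D → ℕ} (hf : ∀ v ∈ W, G.BalAt univ f v)
    (hf2 : ∀ d, G.Tc W d → f d ≠ f (G.inv d)) {x y z : D} (hxy : x ≠ y) (hxz : x ≠ z)
    (hyz : y ≠ z) (hcut : G.cut univ W = {x, y, z}) :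
    (f x ≠ f y ∧ f x ≠ f z ∧ f y ≠ f z) ∧
      ((f (G.inv x) = f y ∧ f (G.inv y) = f z ∧ f (G.inv z) = f x) ∨
      (f (G.inv x) = f z ∧ f (G.inv y) = f x ∧ f (G.inv z) = f y)) := by
  have hc : ∀ d, d ∈ G.cut univ W → f d ≠ f (G.inv d) := by
    intro d hd
    rw [mem_cut] at hd
    exact hf2 d (Or.inl hd.2.1)
  have h := stokes (G := G) cl_univ hf
  rw [hcut] at hc h
  obtain ⟨h1, h2, h3, h4⟩ := three_labels (hc x (by simp)) (hc y (by simp)) (hc z (by simp))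
    (fun k => by
      have := h k
      rw [card_sel_three hxy hxz hyz, card_sel_three hxy hxz hyz] at this
      convert this)
  exact ⟨⟨h1, h2, h3⟩, h4⟩

theorem t_r3 : T_R3 := by
  intro V D _ _ G hG h3 hIH W hW hW' hcut
  have hne : W.Nonempty := card_pos.1 (by omega)
  have hne' : Wᶜ.Nonempty := card_pos.1 (by omega)
  have hu : W ≠ univ := by
    intro h
    rw [h, compl_univ] at hne'
    exact not_nonempty_empty hne'
  have hu' : Wᶜ ≠ univ := by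
    intro h
    rw [compl_eq_univ_iff] at h
    rw [h] at hne
    exact not_nonempty_empty hne
  have hc3 : (G.cut univ W).card = 3 := le_antisymm hcut (h3 W hne hu)
  have hc3' : (G.cut univ Wᶜ).card = 3 := by rw [cut_compl cl_univ, hc3]
  obtain ⟨g1, hg1, hg1'⟩ := exists_inner hG W (by omega)
  obtain ⟨g2, hg2, hg2'⟩ := exists_inner hG Wᶜ (by omega)
  obtain ⟨f, hf⟩ := hIH _ (cl_sdiff_pair cl_univ g2) (ne_univ_of_pair g2) (bl_del h3 g2)
  obtain ⟨g, hg⟩ := hIH _ (cl_sdiff_pair cl_univ g1) (ne_univ_of_pair g1) (bl_del h3 g1)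
  obtain ⟨x, y, z, hxy, hxz, hyz, hxyz⟩ := card_eq_three.1 hc3
  obtain ⟨f1, f2⟩ := cov_del (W := W) (mem_compl.1 hg2) (mem_compl.1 hg2') hf
  have hg1c : G.src g1 ∉ Wᶜ := by rw [mem_compl, not_not]; exact hg1
  have hg1c' : G.tgt g1 ∉ Wᶜ := by rw [mem_compl, not_not]; exact hg1'
  obtain ⟨fd, fs⟩ := cut3_labels f1 f2 hxy hxz hyz hxyz
  -- the cover on the complement
  have main : ∀ g : D → ℕ, G.Cov (univ \ {g1, G.inv g1}) g →
      (g x ≠ g y ∧ g x ≠ g z ∧ g y ≠ g z) ∧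
      ((g (G.inv x) = g y ∧ g (G.inv y) = g z ∧ g (G.inv z) = g x) ∨
      (g (G.inv x) = g z ∧ g (G.inv y) = g x ∧ g (G.inv z) = g y)) := by
    intro g hg
    obtain ⟨k1, k2⟩ := cov_del (W := Wᶜ) hg1c hg1c' hg
    have hcut' : G.cut univ Wᶜ = {G.inv x, G.inv y, G.inv z} := by
      ext d
      rw [mem_cut_compl cl_univ, hxyz]
      simp only [mem_insert, mem_singleton, inv_eq_iff]
    have n1 : G.inv x ≠ G.inv y := fun h => hxy (inv_inj h)
    have n2 : G.inv x ≠ G.inv z := fun h => hxz (inv_inj h)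
    have n3 : G.inv y ≠ G.inv z := fun h => hyz (inv_inj h)
    obtain ⟨⟨q1, q2, q3⟩, q4⟩ := cut3_labels k1 k2 n1 n2 n3 hcut'
    rw [G.inv_inv, G.inv_inv, G.inv_inv] at q4
    rcases q4 with ⟨r1, r2, r3⟩ | ⟨r1, r2, r3⟩
    · rw [r1, r2, r3]
      refine ⟨⟨q3, ?_, ?_⟩, Or.inr ⟨rfl, rfl, rfl⟩⟩
      · exact Ne.symm q1
      · exact Ne.symm q2
    · rw [r1, r2, r3]
      refine ⟨⟨?_, ?_, ?_⟩, Or.inl ⟨rfl, rfl, rfl⟩⟩
      · exact Ne.symm q2
      · exact Ne.symm q3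
      · exact q1
  obtain ⟨gd, gs⟩ := main g hg
  obtain ⟨g3, g4⟩ := cov_del (W := Wᶜ) hg1c hg1c' hg
  have hgr := cov_rev hg
  obtain ⟨gd', gs'⟩ := main _ hgr
  obtain ⟨g3', g4'⟩ := cov_del (W := Wᶜ) hg1c hg1c' hgr
  rcases fs with fs | fs
  · rcases gs with gs | gs
    · exact glue3 W f g f1 g3 f2 g4 x y z hxy hxz hyz hxyz
        (Or.inl ⟨fs.1, fs.2.1, fs.2.2, gs.1, gs.2.1, gs.2.2⟩) fd gd
    · refine glue3 W f (fun d => g (G.inv d)) f1 g3' f2 g4' x y z hxy hxz hyz hxyz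
        (Or.inl ⟨fs.1, fs.2.1, fs.2.2, ?_, ?_, ?_⟩) fd gd'
      · rw [G.inv_inv]; exact gs.2.1.symm
      · rw [G.inv_inv]; exact gs.2.2.symm
      · rw [G.inv_inv]; exact gs.1.symm
  · rcases gs with gs | gs
    · refine glue3 W f (fun d => g (G.inv d)) f1 g3' f2 g4' x y z hxy hxz hyz hxyz
        (Or.inr ⟨fs.1, fs.2.1, fs.2.2, ?_, ?_, ?_⟩) fd gd'
      · rw [G.inv_inv]; exact gs.2.2.symm
      · rw [G.inv_inv]; exact gs.1.symm
      · rw [G.inv_inv]; exact gs.2.1.symm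
    · exact glue3 W f g f1 g3 f2 g4 x y z hxy hxz hyz hxyz
        (Or.inr ⟨fs.1, fs.2.1, fs.2.2, gs.1, gs.2.1, gs.2.2⟩) fd gd

end Pool.Agent.H11.OC
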