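import Pool.Agent.H11.OC.Glue

set_option autoImplicit false
set_option linter.unusedSectionVars false
open scoped Classical
open Finset

namespace Pool.Agent.H11.OC

open Pool.Agent.H69.OC Pool.Agent.H69.OC.DG

variable {V D : Type} [Fintype V] [Fintype D] {G : DG V D}

/-- labels on a cut with three edges -/
theorem cutA3_labels {A : Finset D} (hA : G.Cl A) {W : Finset V} {f : D → ℕ}
    (hf : G.Cov A f) {x y z : D} (hxy : x ≠ y) (hxz : x ≠ z)
    (hyz : y ≠ z) (hcut : G.cut A W = {x, y, z}) :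
    (f x ≠ f y ∧ f x ≠ f z ∧ f y ≠ f z) ∧
      ((f (G.inv x) = f y ∧ f (G.inv y) = f z ∧ f (G.inv z) = f x) ∨
      (f (G.inv x) = f z ∧ f (G.inv y) = f x ∧ f (G.inv z) = f y)) := by
  have hc : ∀ d, d ∈ G.cut A W → f d ≠ f (G.inv d) := by
    intro d hd
    rw [mem_cut] at hd
    exact hf.1 d hd.1
  have h := stokes (G := G) hA (W := W) fun v _ => hf.2 v
  rw [hcut] at hc h
  obtain ⟨h1, h2, h3, h4⟩ := three_labels (hc x (by simp)) (hc y (by simp)) (hc z (by simp))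
    (fun k => by
      have := h k
      rw [card_sel_three hxy hxz hyz, card_sel_three hxy hxz hyz] at this
      convert this)
  exact ⟨⟨h1, h2, h3⟩, h4⟩

/-- connectedness of a part whose leaving edges are in cyclic order in the dual -/
theorem conn_of_cyc (h3 : G.C3) {g : D → ℕ} (Y : Finset V) (hb : ∀ v ∈ Y, G.BalAt univ g v)
    (hYu : Y ≠ univ)
    (cyc : ∀ S ⊆ G.cut univ Y, S.Nonempty → (∀ d ∈ S, ∃ d' ∈ S, g (G.inv d') = g d) →
      (∀ d ∈ S, ∃ d' ∈ S, g d' = g (G.inv d)) → S = G.cut univ Y) : G.Conn univ Y := by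
  intro Z hZ hne hZY
  by_contra hno
  push Not at hno
  have hZu : Z ≠ univ := by
    rintro rfl
    exact hYu (univ_subset_iff.1 hZ)
  have hsub : G.cut univ Z ⊆ G.cut univ Y := by
    intro d hd
    rw [mem_cut] at hd ⊢
    refine ⟨mem_univ _, hZ hd.2.1, fun h => ?_⟩
    exact hd.2.2 (hno d (mem_univ _) hd.2.1 h)
  have hcz := h3 Z hne hZu
  have hst := stokes (G := G) cl_univ (W := Z) fun v hv => hb v (hZ hv)
  have hall := cyc (G.cut univ Z) hsub (card_pos.1 (by omega))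
    (by
      intro d hd
      have h1 := hst (g d)
      have h2 : 0 < (sel (G.cut univ Z) fun d' => g d' = g d).card :=
        card_pos.2 ⟨d, mem_sel.2 ⟨hd, rfl⟩⟩
      rw [h1] at h2
      obtain ⟨d', hd'⟩ := card_pos.1 h2
      exact ⟨d', (mem_sel.1 hd').1, (mem_sel.1 hd').2⟩)
    (by
      intro d hd
      have h1 := hst (g (G.inv d))
      have h2 : 0 < (sel (G.cut univ Z) fun d' => g (G.inv d') = g (G.inv d)).card :=
        card_pos.2 ⟨d, mem_sel.2 ⟨hd, rfl⟩⟩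
      rw [← h1] at h2
      obtain ⟨d', hd'⟩ := card_pos.1 h2
      exact ⟨d', (mem_sel.1 hd').1, (mem_sel.1 hd').2⟩)
  have hne2 : (Y \ Z).Nonempty := by
    rw [nonempty_iff_ne_empty, Ne, sdiff_eq_empty_iff_subset]
    exact fun h => hZY (Subset.antisymm hZ h)
  have hu2 : Y \ Z ≠ univ := by
    intro h
    obtain ⟨v, hv⟩ := hne
    have : v ∈ Y \ Z := by rw [h]; exact mem_univ _
    exact (mem_sdiff.1 this).2 hv
  have h4 := h3 _ hne2 hu2
  obtain ⟨d, hd⟩ := card_pos.1 (lt_of_lt_of_le (by norm_num) h4)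
  rw [mem_cut, mem_sdiff, mem_sdiff] at hd
  by_cases h5 : G.tgt d ∈ Z
  · -- an edge from `Z` to `Y \ Z`
    have := hno (G.inv d) (mem_univ _) (by rw [src_inv]; exact h5) (by rw [tgt_inv]; exact hd.2.1.1)
    rw [tgt_inv] at this
    exact hd.2.1.2 this
  · have h6 : G.tgt d ∉ Y := fun h => hd.2.2 ⟨h, h5⟩
    have h7 : d ∈ G.cut univ Y := mem_cut.2 ⟨mem_univ _, hd.2.1.1, h6⟩
    rw [← hall, mem_cut] at h7
    exact hd.2.1.2 h7.2.1

section
variable {X : Finset V} {g : D → ℕ} {d1 d2 d3 d4 : D} {V1 : Finset V} {t : ℕ}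
  {p : ℕ → ℕ} {h : ℕ → D}

theorem port_facts (hp : G.Ports X g d1 d2 d3 d4) (hc : G.Conf X g d1 d2 d3 d4 V1 t p h) :
    (G.src d1 ∈ V1 ∧ G.src d2 ∈ V1 ∧ G.src d3 ∈ X \ V1 ∧ G.src d4 ∈ X \ V1) ∧
    (G.tgt d1 ∉ X ∧ G.tgt d2 ∉ X ∧ G.tgt d3 ∉ X ∧ G.tgt d4 ∉ X) ∧
    (∀ i < t, G.src (h i) ∈ V1 ∧ G.tgt (h i) ∈ X \ V1) := by
  have c1 := (hp.cut d1).2 (Or.inl rfl)
  have c2 := (hp.cut d2).2 (Or.inr (Or.inl rfl))
  have c3 := (hp.cut d3).2 (Or.inr (Or.inr (Or.inl rfl)))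
  have c4 := (hp.cut d4).2 (Or.inr (Or.inr (Or.inr rfl)))
  have v1 := (hc.cut d1).2 (Or.inl rfl)
  have v2 := (hc.cut d2).2 (Or.inr (Or.inl rfl))
  rw [mem_cut] at c1 c2 c3 c4 v1 v2
  have hh : ∀ i < t, G.src (h i) ∈ V1 ∧ G.tgt (h i) ∈ X \ V1 := by
    intro i hi
    have h1 := (hc.cut (h i)).2 (Or.inr (Or.inr ⟨i, hi, rfl⟩))
    rw [mem_cut] at h1
    exact ⟨h1.2.1, mem_sdiff.2 ⟨hc.inX i hi, h1.2.2⟩⟩
  have key : ∀ d, G.src d ∈ X → G.tgt d ∉ X → d ≠ d1 → d ≠ d2 → G.src d ∈ X \ V1 := by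
    intro d h1 h2 h3 h4
    rw [mem_sdiff]
    refine ⟨h1, fun h5 => ?_⟩
    have h6 : d ∈ G.cut univ V1 := mem_cut.2 ⟨mem_univ _, h5, fun h => h2 (hc.sub h)⟩
    rw [hc.cut] at h6
    rcases h6 with h6 | h6 | ⟨i, hi, h6⟩
    · exact h3 h6
    · exact h4 h6
    · rw [h6] at h2
      exact h2 (hc.inX i hi)
  refine ⟨⟨v1.2.1, v2.2.1, key d3 c3.2.1 c3.2.2 ?_ ?_, key d4 c4.2.1 c4.2.2 ?_ ?_⟩,
    ⟨c1.2.2, c2.2.2, c3.2.2, c4.2.2⟩, hh⟩
  · rintro rfl
    exact hp.n13 rfl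
  · rintro rfl
    exact hp.n23 rfl
  · rintro rfl
    exact hp.n14 rfl
  · rintro rfl
    exact hp.n24 rfl

theorem cut_rest (hp : G.Ports X g d1 d2 d3 d4) (hc : G.Conf X g d1 d2 d3 d4 V1 t p h) (d : D) :
    d ∈ G.cut univ (X \ V1) ↔ (d = d3 ∨ d = d4 ∨ ∃ i < t, d = G.inv (h i)) := by
  obtain ⟨⟨s1, s2, s3, s4⟩, ⟨t1, t2, t3, t4⟩, hh⟩ := port_facts hp hc
  constructor
  · intro hd
    rw [mem_cut, mem_sdiff, mem_sdiff] at hd
    by_cases h1 : G.tgt d ∈ X
    · have h2 : G.tgt d ∈ V1 := by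
        by_contra h3
        exact hd.2.2 ⟨h1, h3⟩
      have h3 : G.inv d ∈ G.cut univ V1 := mem_cut.2 ⟨mem_univ _, by rw [src_inv]; exact h2, by
        rw [tgt_inv]; exact hd.2.1.2⟩
      rw [hc.cut, inv_eq_iff, inv_eq_iff] at h3
      rcases h3 with h3 | h3 | ⟨i, hi, h3⟩
      · rw [h3, src_inv] at hd
        exact absurd hd.2.1.1 t1
      · rw [h3, src_inv] at hd
        exact absurd hd.2.1.1 t2
      · rw [inv_eq_iff] at h3
        exact Or.inr (Or.inr ⟨i, hi, h3⟩)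
    · have h2 : d ∈ G.cut univ X := mem_cut.2 ⟨mem_univ _, hd.2.1.1, h1⟩
      rw [hp.cut] at h2
      rcases h2 with h2 | h2 | h2 | h2
      · rw [h2] at hd
        exact absurd s1 hd.2.1.2
      · rw [h2] at hd
        exact absurd s2 hd.2.1.2
      · exact Or.inl h2
      · exact Or.inr (Or.inl h2)
  · rintro (rfl | rfl | ⟨i, hi, rfl⟩)
    · exact mem_cut.2 ⟨mem_univ _, s3, fun h => t3 (mem_sdiff.1 h).1⟩
    · exact mem_cut.2 ⟨mem_univ _, s4, fun h => t4 (mem_sdiff.1 h).1⟩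
    · refine mem_cut.2 ⟨mem_univ _, by rw [src_inv]; exact (hh i hi).2, ?_⟩
      rw [tgt_inv]
      exact fun h => (mem_sdiff.1 h).2 (hh i hi).1

theorem conn_V1 (h3 : G.C3) (hX : G.Pocket X g) (hp : G.Ports X g d1 d2 d3 d4)
    (hc : G.Conf X g d1 d2 d3 d4 V1 t p h) (ht : 0 < t) : G.Conn univ V1 := by
  obtain ⟨⟨s1, s2, s3, s4⟩, ⟨t1, t2, t3, t4⟩, hh⟩ := port_facts hp hc
  refine conn_of_cyc h3 (g := g) V1 (fun v hv => hX.bal v (hc.sub hv)) ?_ ?_
  · rintro rfl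
    exact (mem_sdiff.1 s3).2 (mem_univ _)
  intro S hS hne hfor _
  have hmem : ∀ d ∈ S, d = d1 ∨ d = d2 ∨ ∃ i < t, d = h i := fun d hd => (hc.cut d).1 (hS hd)
  -- successors
  have a1 : d1 ∈ S → h 0 ∈ S := by
    intro hd
    obtain ⟨d', hd', he⟩ := hfor _ hd
    rcases hmem d' hd' with rfl | rfl | ⟨i, hi, rfl⟩
    · exact absurd (he.symm.trans hp.h12) hp.n12
    · exact absurd (he.symm.trans hp.h23) hp.n13
    · rw [(hc.hp i hi).1, ← hc.p0] at he
      have := hc.inj i hi.le 0 (Nat.zero_le _) he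
      rw [this] at hd'
      exact hd'
  have a2 : ∀ i < t, h i ∈ S → (i + 1 < t ∧ h (i + 1) ∈ S) ∨ (i + 1 = t ∧ d2 ∈ S) := by
    intro i hi hd
    obtain ⟨d', hd', he⟩ := hfor _ hd
    rw [(hc.hp i hi).2] at he
    rcases hmem d' hd' with rfl | rfl | ⟨j, hj, rfl⟩
    · rw [hp.h12] at he
      exact absurd he.symm (hc.n2 (i + 1) hi)
    · rw [hp.h23, ← hc.pt] at he
      have := hc.inj t le_rfl (i + 1) hi he
      exact Or.inr ⟨this.symm, hd'⟩
    · rw [(hc.hp j hj).1] at he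
      have := hc.inj j hj.le (i + 1) hi he
      rw [this] at hd' hj
      exact Or.inl ⟨hj, hd'⟩
  have a3 : d2 ∈ S → d1 ∈ S := by
    intro hd
    obtain ⟨d', hd', he⟩ := hfor _ hd
    rcases hmem d' hd' with rfl | rfl | ⟨i, hi, rfl⟩
    · exact hd'
    · exact absurd (he.symm.trans hp.h23) hp.n23
    · rw [(hc.hp i hi).1] at he
      exact absurd he (hc.n2 i hi.le)
  have a4 : ∀ m i, i + m + 1 = t → h i ∈ S → d2 ∈ S := by
    intro m
    induction m with
    | zero =>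
      intro i hi hd
      rcases a2 i (by omega) hd with h1 | h1
      · omega
      · exact h1.2
    | succ m ih =>
      intro i hi hd
      rcases a2 i (by omega) hd with h1 | h1
      · exact ih (i + 1) (by omega) h1.2
      · exact h1.2
  have b1 : d1 ∈ S := by
    obtain ⟨d, hd⟩ := hne
    rcases hmem d hd with rfl | rfl | ⟨i, hi, rfl⟩
    · exact hd
    · exact a3 hd
    · exact a3 (a4 (t - i - 1) i (by omega) hd)
  have b2 : ∀ i < t, h i ∈ S := by
    intro i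
    induction i with
    | zero => exact fun _ => a1 b1
    | succ i ih =>
      intro hi
      rcases a2 i (by omega) (ih (by omega)) with h1 | h1
      · exact h1.2
      · omega
  have b3 : d2 ∈ S := a4 (t - 1) 0 (by omega) (b2 0 ht)
  refine Subset.antisymm hS fun d hd => ?_
  rcases (hc.cut d).1 hd with rfl | rfl | ⟨i, hi, rfl⟩
  · exact b1
  · exact b3
  · exact b2 i hi

theorem conn_rest (h3 : G.C3) (hX : G.Pocket X g) (hp : G.Ports X g d1 d2 d3 d4)
    (hc : G.Conf X g d1 d2 d3 d4 V1 t p h) (ht : 0 < t) : G.Conn univ (X \ V1) := by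
  obtain ⟨⟨s1, s2, s3, s4⟩, ⟨t1, t2, t3, t4⟩, hh⟩ := port_facts hp hc
  refine conn_of_cyc h3 (g := g) (X \ V1) (fun v hv => hX.bal v (mem_sdiff.1 hv).1) ?_ ?_
  · intro hu
    have : G.src d1 ∈ X \ V1 := by rw [hu]; exact mem_univ _
    exact (mem_sdiff.1 this).2 s1
  intro S hS hne _ hfor
  have hmem : ∀ d ∈ S, d = d3 ∨ d = d4 ∨ ∃ i < t, d = G.inv (h i) :=
    fun d hd => (cut_rest hp hc d).1 (hS hd)
  have a1 : d4 ∈ S → G.inv (h 0) ∈ S := by
    intro hd
    obtain ⟨d', hd', he⟩ := hfor _ hd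
    rw [hp.h41] at he
    rcases hmem d' hd' with rfl | rfl | ⟨i, hi, rfl⟩
    · exact absurd he.symm hp.n13
    · exact absurd he.symm hp.n14
    · rw [(hc.hp i hi).1, ← hc.p0] at he
      have := hc.inj i hi.le 0 (Nat.zero_le _) he
      rw [this] at hd'
      exact hd'
  have a2 : ∀ i < t, G.inv (h i) ∈ S →
      (i + 1 < t ∧ G.inv (h (i + 1)) ∈ S) ∨ (i + 1 = t ∧ d3 ∈ S) := by
    intro i hi hd
    obtain ⟨d', hd', he⟩ := hfor _ hd
    rw [G.inv_inv, (hc.hp i hi).2] at he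
    rcases hmem d' hd' with rfl | rfl | ⟨j, hj, rfl⟩
    · rw [← hc.pt] at he
      have := hc.inj t le_rfl (i + 1) hi he
      exact Or.inr ⟨this.symm, hd'⟩
    · exact absurd he.symm (hc.n4 (i + 1) hi)
    · rw [(hc.hp j hj).1] at he
      have := hc.inj j hj.le (i + 1) hi he
      rw [this] at hd' hj
      exact Or.inl ⟨hj, hd'⟩
  have a3 : d3 ∈ S → d4 ∈ S := by
    intro hd
    obtain ⟨d', hd', he⟩ := hfor _ hd
    rw [hp.h34] at he
    rcases hmem d' hd' with rfl | rfl | ⟨i, hi, rfl⟩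
    · exact absurd he hp.n34
    · exact hd'
    · rw [(hc.hp i hi).1] at he
      exact absurd he (hc.n4 i hi.le)
  have a4 : ∀ m i, i + m + 1 = t → G.inv (h i) ∈ S → d3 ∈ S := by
    intro m
    induction m with
    | zero =>
      intro i hi hd
      rcases a2 i (by omega) hd with h1 | h1
      · omega
      · exact h1.2
    | succ m ih =>
      intro i hi hd
      rcases a2 i (by omega) hd with h1 | h1
      · exact ih (i + 1) (by omega) h1.2
      · exact h1.2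
  have b1 : d4 ∈ S := by
    obtain ⟨d, hd⟩ := hne
    rcases hmem d hd with rfl | rfl | ⟨i, hi, rfl⟩
    · exact a3 hd
    · exact hd
    · exact a3 (a4 (t - i - 1) i (by omega) hd)
  have b2 : ∀ i < t, G.inv (h i) ∈ S := by
    intro i
    induction i with
    | zero => exact fun _ => a1 b1
    | succ i ih =>
      intro hi
      rcases a2 i (by omega) (ih (by omega)) with h1 | h1
      · exact h1.2
      · omega
  have b3 : d3 ∈ S := a4 (t - 1) 0 (by omega) (b2 0 ht)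
  refine Subset.antisymm hS fun d hd => ?_
  rcases (cut_rest hp hc d).1 hd with rfl | rfl | ⟨i, hi, rfl⟩
  · exact b3
  · exact b1
  · exact b2 i hi

/-- the edges of `G` without `h 1, …, h (t-1)` -/
noncomputable def AA0 (G : DG V D) (t : ℕ) (h : ℕ → D) : Finset D :=
  sel univ fun d => ∀ i, 1 ≤ i → i < t → d ≠ h i ∧ d ≠ G.inv (h i)

theorem mem_AA0 {d : D} : d ∈ AA0 G t h ↔ ∀ i, 1 ≤ i → i < t → d ≠ h i ∧ d ≠ G.inv (h i) := by
  rw [AA0, mem_sel]
  exact ⟨fun h => h.2, fun h => ⟨mem_univ _, h⟩⟩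

theorem cl_AA0 : G.Cl (AA0 G t h) := by
  intro d hd
  rw [mem_AA0] at hd ⊢
  intro i h1 h2
  have h3 := hd i h1 h2
  refine ⟨fun h4 => h3.2 ?_, fun h4 => h3.1 (inv_inj h4)⟩
  rw [inv_eq_iff] at h4
  exact h4

/-- two sides: a set of vertices is either inside or outside if no edge of it is separated -/
theorem side_of_conn {Y W : Finset V} (hY : G.Conn univ Y)
    (hno : ∀ d, G.src d ∈ Y → G.tgt d ∈ Y → G.src d ∈ W → G.tgt d ∈ W) :
    Y ⊆ W ∨ Disjoint Y W := by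
  by_contra hcon
  push Not at hcon
  obtain ⟨h1, h2⟩ := hcon
  rw [disjoint_left] at h2
  push Not at h2
  obtain ⟨v, hv, hvW⟩ := h2
  obtain ⟨d, _, k1, k2, k3⟩ := hY (Y ∩ W) inter_subset_left ⟨v, mem_inter.2 ⟨hv, hvW⟩⟩ (by
    intro h3
    rw [inter_eq_left] at h3
    exact h1 h3)
  rw [mem_inter] at k1
  exact k3 (mem_inter.2 ⟨k2, hno d k1.1 k2 k1.2⟩)

/-- the main claim for `V1 ⊆ W` -/
theorem bridge_aux (h3 : G.C3) (hp : G.Ports X g d1 d2 d3 d4)
    (hc : G.Conf X g d1 d2 d3 d4 V1 t p h) {W : Finset V} (hV : V1 ⊆ W)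
    (hV2 : Disjoint (X \ V1) W) (hb : G.cut (AA0 G t h) W = {h 0}) (ht : 0 < t) : False := by
  obtain ⟨⟨s1, s2, s3, s4⟩, ⟨t1, t2, t3, t4⟩, hh⟩ := port_facts hp hc
  have hout : ∀ d, ¬ (G.src d ∈ X ∧ G.tgt d ∈ X) → d ∈ AA0 G t h := by
    intro d hd
    rw [mem_AA0]
    intro i _ h2
    have h4 := hh i h2
    have h5 := mem_sdiff.1 h4.2
    refine ⟨?_, ?_⟩
    · rintro rfl
      exact hd ⟨hc.sub h4.1, h5.1⟩
    · rintro rfl
      rw [src_inv, tgt_inv] at hd
      exact hd ⟨h5.1, hc.sub h4.1⟩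
  have hin : ∀ d, G.src d ∈ V1 → G.tgt d ∉ X → G.tgt d ∈ W := by
    intro d h4 h5
    by_contra h6
    have h7 : d ∈ G.cut (AA0 G t h) W := mem_cut.2 ⟨hout d fun h => h5 h.2, hV h4, h6⟩
    rw [hb, mem_singleton] at h7
    rw [h7] at h5
    exact h5 (hc.inX 0 ht)
  have e1 := hin d1 s1 t1
  have hne : (W \ X).Nonempty := ⟨_, mem_sdiff.2 ⟨e1, t1⟩⟩
  have hu : W \ X ≠ univ := by
    intro h4
    have : G.src d1 ∈ W \ X := by rw [h4]; exact mem_univ _
    exact (mem_sdiff.1 this).2 (hc.sub s1)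
  have h4 := h3 _ hne hu
  have h5 : G.cut univ (W \ X) ⊆ {G.inv d1, G.inv d2} := by
    intro d hd
    rw [mem_cut, mem_sdiff, mem_sdiff] at hd
    by_cases h6 : G.tgt d ∈ W
    · have h7 : G.tgt d ∈ X := by
        by_contra h8
        exact hd.2.2 ⟨h6, h8⟩
      have h8 : G.tgt d ∈ V1 := by
        by_contra h9
        exact (disjoint_left.1 hV2) (mem_sdiff.2 ⟨h7, h9⟩) h6
      have h9 : G.inv d ∈ G.cut univ X := mem_cut.2 ⟨mem_univ _, by rw [src_inv]; exact h7, by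
        rw [tgt_inv]; exact hd.2.1.2⟩
      rw [hp.cut, inv_eq_iff, inv_eq_iff, inv_eq_iff, inv_eq_iff] at h9
      rw [mem_insert, mem_singleton]
      rcases h9 with h9 | h9 | h9 | h9
      · exact Or.inl h9
      · exact Or.inr h9
      · rw [h9, tgt_inv] at h8
        exact absurd h8 (mem_sdiff.1 s3).2
      · rw [h9, tgt_inv] at h8
        exact absurd h8 (mem_sdiff.1 s4).2
    · have h7 : d ∈ G.cut (AA0 G t h) W :=
        mem_cut.2 ⟨hout d fun h => hd.2.1.2 h.1, hd.2.1.1, h6⟩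
      rw [hb, mem_singleton] at h7
      rw [h7] at hd
      exact absurd (hc.sub (hh 0 ht).1) hd.2.1.2
  have h6 := (card_le_card h5).trans (card_insert_le _ _)
  rw [card_singleton] at h6
  omega

theorem no_bridge (h3 : G.C3) (hX : G.Pocket X g) (hp : G.Ports X g d1 d2 d3 d4)
    (hc : G.Conf X g d1 d2 d3 d4 V1 t p h) (ht : 0 < t) {b : D}
    (hb : G.Tc Xᶜ b ∨ b = h 0 ∨ b = G.inv (h 0)) {W : Finset V}
    (hW : G.cut (AA0 G t h) W = {b}) : False := by
  obtain ⟨⟨s1, s2, s3, s4⟩, ⟨t1, t2, t3, t4⟩, hh⟩ := port_facts hp hc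
  have hbW : b ∈ G.cut (AA0 G t h) W := by rw [hW]; exact mem_singleton_self _
  rw [mem_cut] at hbW
  have hh0 := hh 0 ht
  have hh0' := mem_sdiff.1 hh0.2
  -- `b` is not inside `V1` or `X \ V1`
  have nb1 : ¬ (G.src b ∈ V1 ∧ G.tgt b ∈ V1) := by
    rintro ⟨k1, k2⟩
    rcases hb with hb | rfl | rfl
    · unfold Tc at hb
      rw [mem_compl, mem_compl] at hb
      rcases hb with hb | hb
      · exact hb (hc.sub k1)
      · exact hb (hc.sub k2)
    · exact hh0'.2 k2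
    · rw [src_inv] at k1
      exact hh0'.2 k1
  have nb2 : ¬ (G.src b ∈ X \ V1 ∧ G.tgt b ∈ X \ V1) := by
    rintro ⟨k1, k2⟩
    rw [mem_sdiff] at k1 k2
    rcases hb with hb | rfl | rfl
    · unfold Tc at hb
      rw [mem_compl, mem_compl] at hb
      rcases hb with hb | hb
      · exact hb k1.1
      · exact hb k2.1
    · exact k1.2 hh0.1
    · rw [tgt_inv] at k2
      exact k2.2 hh0.1
  -- an edge inside `V1` or inside `X \ V1` is in `A0`
  have in1 : ∀ d, (G.src d ∈ V1 ↔ G.tgt d ∈ V1) → d ∈ AA0 G t h := by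
    intro d hd
    rw [mem_AA0]
    intro i _ h2
    have h4 := hh i h2
    have h5 := mem_sdiff.1 h4.2
    refine ⟨?_, ?_⟩
    · rintro rfl
      tauto
    · rintro rfl
      rw [src_inv, tgt_inv] at hd
      tauto
  have sep : ∀ d, d ∈ AA0 G t h → G.src d ∈ W → G.tgt d ∉ W → d = b := by
    intro d k1 k2 k3
    have : d ∈ G.cut (AA0 G t h) W := mem_cut.2 ⟨k1, k2, k3⟩
    rwa [hW, mem_singleton] at this
  have sd1 := side_of_conn (W := W) (conn_V1 h3 hX hp hc ht) (by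
    intro d k1 k2 k3
    by_contra k4
    have := sep d (in1 d (by tauto)) k3 k4
    subst this
    exact nb1 ⟨k1, k2⟩)
  have sd2 := side_of_conn (W := W) (conn_rest h3 hX hp hc ht) (by
    intro d k1 k2 k3
    by_contra k4
    have := sep d (in1 d (by
      rw [mem_sdiff] at k1 k2
      tauto)) k3 k4
    subst this
    exact nb2 ⟨k1, k2⟩)
  have hWne : W.Nonempty := ⟨_, hbW.2.1⟩
  have hWu : W ≠ univ := by
    rintro rfl
    exact hbW.2.2 (mem_univ _)
  have h4 := h3 W hWne hWu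
  -- if `h i` is not separated then `cut univ W = {b}`
  have same : (∀ i < t, (G.src (h i) ∈ W ↔ G.tgt (h i) ∈ W)) → False := by
    intro hs
    have : G.cut univ W ⊆ {b} := by
      intro d hd
      rw [mem_cut] at hd
      rw [mem_singleton]
      refine sep d ?_ hd.2.1 hd.2.2
      rw [mem_AA0]
      intro i _ h2
      have h5 := hs i h2
      refine ⟨?_, ?_⟩
      · rintro rfl
        tauto
      · rintro rfl
        rw [src_inv, tgt_inv] at hd
        tauto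
    have := card_le_card this
    rw [card_singleton] at this
    omega
  have h0A : h 0 ∈ AA0 G t h := by
    rw [mem_AA0]
    intro i h1 h2
    refine ⟨fun h5 => ?_, fun h5 => ?_⟩
    · have h6 := (hc.hp 0 ht).2
      rw [h5, (hc.hp i h2).2] at h6
      have := hc.inj (i + 1) (by omega) (0 + 1) (by omega) h6
      omega
    · have h6 := hh0.1
      rw [h5, src_inv] at h6
      exact (mem_sdiff.1 (hh i h2).2).2 h6
  rcases sd1 with sd1 | sd1
  · rcases sd2 with sd2 | sd2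
    · exact same fun i hi => ⟨fun _ => sd2 (hh i hi).2, fun _ => sd1 (hh i hi).1⟩
    · -- `V1 ⊆ W`, `X \ V1` outside
      have h5 := sep (h 0) h0A (sd1 hh0.1) (disjoint_left.1 sd2 hh0.2)
      rw [← h5] at hW
      exact bridge_aux h3 hp hc sd1 sd2 hW ht
  · rcases sd2 with sd2 | sd2
    · have h5 := sep (G.inv (h 0)) (cl_AA0 _ h0A) (by rw [src_inv]; exact sd2 hh0.2)
        (by rw [tgt_inv]; exact disjoint_left.1 sd1 hh0.1)
      have hW' : G.cut (AA0 G t h) Wᶜ = {h 0} := by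
        ext d
        rw [mem_cut_compl cl_AA0, hW, mem_singleton, mem_singleton, ← h5]
        exact ⟨inv_inj, fun h => by rw [h]⟩
      refine bridge_aux h3 hp hc (W := Wᶜ) ?_ ?_ hW' ht
      · intro v hv
        rw [mem_compl]
        exact disjoint_left.1 sd1 hv
      · rw [disjoint_left]
        intro v hv
        rw [mem_compl, not_not]
        exact sd2 hv
    · exact same fun i hi => ⟨fun h => absurd h (disjoint_left.1 sd1 (hh i hi).1),
        fun h => absurd h (disjoint_left.1 sd2 (hh i hi).2)⟩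

end

theorem t_red (hcore : T_CORE) : T_RED := by
  intro V D _ _ G hG h3 hIH X g hX d1 d2 d3 d4 hp V1 t p h hc ht
  have ht0 : 0 < t := by omega
  obtain ⟨⟨s1, s2, s3, s4⟩, ⟨t1, t2, t3, t4⟩, hh⟩ := port_facts hp hc
  obtain ⟨A, hA, hcl, hbl, hbr⟩ := hcore V D G (AA0 G t h) cl_AA0
  have h1A0 : h 1 ∉ AA0 G t h := by
    intro h5
    rw [mem_AA0] at h5
    exact (h5 1 le_rfl (by omega)).1 rfl
  have hAu : A ≠ univ := by
    rintro rfl
    exact h1A0 (hA (mem_univ _))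
  obtain ⟨f, hf⟩ := hIH A hcl hAu hbl
  have hh0 := hh 0 ht0
  have hh0' := mem_sdiff.1 hh0.2
  have h0A0 : h 0 ∈ AA0 G t h := by
    rw [mem_AA0]
    intro i h1 h2
    refine ⟨fun h5 => ?_, fun h5 => ?_⟩
    · have h6 := (hc.hp 0 ht0).2
      rw [h5, (hc.hp i h2).2] at h6
      have := hc.inj (i + 1) (by omega) (0 + 1) (by omega) h6
      omega
    · have h6 := hh0.1
      rw [h5, src_inv] at h6
      exact (mem_sdiff.1 (hh i h2).2).2 h6
  have hout : ∀ d, G.Tc Xᶜ d → d ∈ AA0 G t h := by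
    intro d hd
    unfold Tc at hd
    rw [mem_compl, mem_compl] at hd
    rw [mem_AA0]
    intro i _ h2
    have h4 := hh i h2
    have h5 := mem_sdiff.1 h4.2
    have h6 := hc.sub h4.1
    refine ⟨?_, ?_⟩
    · rintro rfl
      tauto
    · rintro rfl
      rw [src_inv, tgt_inv] at hd
      tauto
  have hinA : ∀ d, (G.Tc Xᶜ d ∨ d = h 0 ∨ d = G.inv (h 0)) → d ∈ A := by
    intro d hd
    by_contra h5
    have h6 : d ∈ AA0 G t h := by
      rcases hd with hd | rfl | rfl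
      · exact hout d hd
      · exact h0A0
      · exact cl_AA0 _ h0A0
    obtain ⟨W, hW⟩ := hbr d h6 h5
    exact no_bridge h3 hX hp hc ht0 hd hW
  have tc : ∀ d, G.tgt d ∉ X → G.Tc Xᶜ d := fun d hd => Or.inr (mem_compl.2 hd)
  -- the two cuts
  have hcut1 : G.cut A V1 = {d1, d2, h 0} := by
    ext d
    rw [mem_cut]
    simp only [mem_insert, mem_singleton]
    constructor
    · rintro ⟨k1, k2, k3⟩
      have k4 : d ∈ G.cut univ V1 := mem_cut.2 ⟨mem_univ _, k2, k3⟩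
      rcases (hc.cut d).1 k4 with k4 | k4 | ⟨i, hi, k4⟩
      · exact Or.inl k4
      · exact Or.inr (Or.inl k4)
      · rcases Nat.eq_zero_or_pos i with h0 | h0
        · rw [h0] at k4
          exact Or.inr (Or.inr k4)
        · have := hA k1
          rw [mem_AA0] at this
          exact absurd k4 (this i h0 hi).1
    · rintro (rfl | rfl | rfl)
      · exact ⟨hinA _ (Or.inl (tc _ t1)), s1, fun h => t1 (hc.sub h)⟩
      · exact ⟨hinA _ (Or.inl (tc _ t2)), s2, fun h => t2 (hc.sub h)⟩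
      · exact ⟨hinA _ (Or.inr (Or.inl rfl)), hh0.1, hh0'.2⟩
  have hcut2 : G.cut A (X \ V1) = {d3, d4, G.inv (h 0)} := by
    ext d
    rw [mem_cut]
    simp only [mem_insert, mem_singleton]
    constructor
    · rintro ⟨k1, k2, k3⟩
      have k4 : d ∈ G.cut univ (X \ V1) := mem_cut.2 ⟨mem_univ _, k2, k3⟩
      rcases (cut_rest hp hc d).1 k4 with k4 | k4 | ⟨i, hi, k4⟩
      · exact Or.inl k4
      · exact Or.inr (Or.inl k4)
      · rcases Nat.eq_zero_or_pos i with h0 | h0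
        · rw [h0] at k4
          exact Or.inr (Or.inr k4)
        · have := hA k1
          rw [mem_AA0] at this
          exact absurd k4 (this i h0 hi).2
    · rintro (rfl | rfl | rfl)
      · exact ⟨hinA _ (Or.inl (tc _ t3)), s3, fun h => t3 (mem_sdiff.1 h).1⟩
      · exact ⟨hinA _ (Or.inl (tc _ t4)), s4, fun h => t4 (mem_sdiff.1 h).1⟩
      · refine ⟨hinA _ (Or.inr (Or.inr rfl)), by rw [src_inv]; exact hh0.2, ?_⟩
        rw [tgt_inv]
        exact fun h => (mem_sdiff.1 h).2 hh0.1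
  have n12 : d1 ≠ d2 := by rintro rfl; exact hp.n12 rfl
  have n34 : d3 ≠ d4 := by rintro rfl; exact hp.n34 rfl
  have n1h : d1 ≠ h 0 := by
    intro h5
    rw [h5] at t1
    exact t1 hh0'.1
  have n2h : d2 ≠ h 0 := by
    intro h5
    rw [h5] at t2
    exact t2 hh0'.1
  have n3h : d3 ≠ G.inv (h 0) := by
    intro h5
    rw [h5, tgt_inv] at t3
    exact t3 (hc.sub hh0.1)
  have n4h : d4 ≠ G.inv (h 0) := by
    intro h5
    rw [h5, tgt_inv] at t4
    exact t4 (hc.sub hh0.1)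
  -- orientation
  obtain ⟨mu, hmu, m1, m2, m3⟩ : ∃ mu, G.Cov A mu ∧ mu (G.inv d1) = mu d2 ∧
      mu (G.inv d2) = mu (h 0) ∧ mu (G.inv (h 0)) = mu d1 := by
    obtain ⟨_, h5 | h5⟩ := cutA3_labels hcl hf n12 n1h n2h hcut1
    · exact ⟨f, hf, h5.1, h5.2.1, h5.2.2⟩
    · refine ⟨fun d => f (G.inv d), cov_rev hf, ?_, ?_, ?_⟩
      · dsimp only; rw [G.inv_inv]; exact h5.2.1.symm
      · dsimp only; rw [G.inv_inv]; exact h5.2.2.symm
      · dsimp only; rw [G.inv_inv]; exact h5.1.symm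
  obtain ⟨⟨q1, q2, q3⟩, _⟩ := cutA3_labels hcl hmu n12 n1h n2h hcut1
  obtain ⟨_, r⟩ := cutA3_labels hcl hmu n34 n3h n4h hcut2
  rw [G.inv_inv] at r
  refine ⟨mu, fun v hv => ?_, fun d hd => hmu.1 d (hinA d (Or.inl hd)), m1, by rw [m2]; exact q2, ?_⟩
  · refine bal_congr (fun d hd => ?_) (fun d _ _ => ⟨rfl, rfl⟩) (hmu.2 v)
    exact ⟨fun _ => mem_univ _, fun _ => hinA d (Or.inl (Or.inl (by
      rw [hd]; exact mem_compl.2 hv)))⟩
  · rcases r with ⟨r1, r2, r3⟩ | ⟨r1, r2, r3⟩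
    · exact Or.inl ⟨by rw [m2]; exact r3.symm, r1.symm, by rw [r2, m3]⟩
    · exact Or.inr ⟨by rw [r1, m3], by rw [m2]; exact r3.symm, r2⟩

end Pool.Agent.H11.OC
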